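import Pool.Agent.Y721.KZ.Base

/-!
`Pool.Agent.Y192.KC.St_zgm`: one-parameter groups give `G_m`-curves through general points.
-/

set_option autoImplicit false
set_option linter.unusedVariables false
set_option linter.unusedSectionVars false

open MvPolynomial Pool.Agent.Y192.KC Pool.Agent.Y270.KC

namespace Pool.Agent.Y721.KZ

theorem hom0 {n : ℕ} {A : MvPolynomial (Fin (n + 1)) ℂ} (hA : A.IsHomogeneous 0)
    (l : Fin (n + 1) → ℤ) (c : Fin (n + 1) →₀ ℕ) (hc : c ∈ A.support) : ∑ i, l i * (c i : ℤ) = 0 := by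
  have h1 := hA (mem_support_iff.1 hc)
  rw [Finsupp.weight_apply, Finsupp.sum_fintype _ _ (by simp)] at h1
  have h2 : ∀ i, c i = 0 := by
    intro i
    have := (Finset.sum_eq_zero_iff.1 h1) i (Finset.mem_univ i)
    simpa using this
  simp [h2]

theorem wp_hom {n : ℕ} (l : Fin (n + 1) → ℤ) (k : ℤ) (A : MvPolynomial (Fin (n + 1)) ℂ) :
    ∀ c ∈ (wp l k A).support, ∑ i, l i * (c i : ℤ) = k := by
  classical
  intro c hc
  unfold wp at hc
  have h1 := support_sum hc
  rw [Finset.mem_biUnion] at h1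
  obtain ⟨c', hc', h2⟩ := h1
  have h3 := support_monomial_subset h2
  rw [Finset.mem_singleton] at h3
  rw [h3]
  exact (Finset.mem_filter.1 hc').2

theorem t_zgm : St_zgm := by
  classical
  intro n r X m hm hem hRed L _ _ t w hF hPG
  obtain ⟨B0, D0, hB0, hB0ne, hcurves⟩ := hPG
  obtain ⟨l, ⟨i1, i2, hl⟩, hI, ⟨kG, hG⟩, hHS⟩ := hRed
  have hprime := X.prime
  have h1I : (1 : MvPolynomial (Fin (n + 1)) ℂ) ∉ X.I := fun h =>
    hprime.ne_top ((Ideal.eq_top_iff_one _).2 h)
  -- normalised factorisations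
  have hHS' : ∀ j, ∃ (D H S : MvPolynomial (Fin (n + 1)) ℂ) (kD kH : ℤ), D ∉ X.I ∧ H ∉ X.I ∧
      S ∉ X.I ∧ D * X.F j - H * S ^ X.e j ∈ X.I ∧
      (∀ c ∈ D.support, ∑ i, l i * c i = kD) ∧
      (∀ c ∈ H.support, ∑ i, l i * c i = kH) ∧ (X.d j = 0 → S = 1 ∧ kH - kD = 0) := by
    intro j
    by_cases hd : X.d j = 0
    · refine ⟨1, X.F j, 1, 0, 0, h1I, X.hFI j, h1I, by simp, fun c hc => ?_, fun c hc => ?_,
        fun _ => ⟨rfl, sub_self _⟩⟩
      · exact hom0 (isHomogeneous_one _ _) l c hc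
      · exact hom0 (hd ▸ X.hF j) l c hc
    · obtain ⟨D, H, S, h1, h2, h3, ⟨kD, hkD⟩, ⟨kH, hkH⟩, -, -, -, h4⟩ := hHS j
      exact ⟨D, H, S, kD, kH, h1, h2, h3, h4, hkD, hkH, fun h => absurd h hd⟩
  choose D H S kD kH hDI hHI hSI hFH hDhom hHom hd0 using hHS'
  have hwt : ∀ j, X.wt m j * X.e j = m * X.d j := by
    intro j
    unfold Cov.wt
    obtain ⟨a, ha⟩ := hem j
    rw [ha, mul_assoc, Nat.mul_div_cancel_left _ (X.he j)]
    ring
  -- the cone
  let K := FractionRing (Polynomial L)
  let τ : K := algebraMap (Polynomial L) K Polynomial.X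
  have hτ : Transcendental L τ := by
    have h1 : Transcendental L (Polynomial.X : Polynomial L) := Polynomial.transcendental_X L
    exact (transcendental_algebraMap_iff (IsFractionRing.injective (Polynomial L) K)).2 h1
  have hτ0 : τ ≠ 0 := by
    intro h
    rw [h] at hτ
    exact hτ isAlgebraic_zero
  let T : Fin (n + 1) → K := fun i => algebraMap L K (t i) * τ
  have hT0 : ∀ i, T i ≠ 0 := fun i => mul_ne_zero ((map_ne_zero _).2 (t_ne hm hF i)) hτ0
  have hcm : ∀ P, aeval (fun i => T i ^ m) P = 0 ↔ P ∈ X.I := cone_mem hm hF hτ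
  have hTP : ∀ P : MvPolynomial (Fin (n + 1)) ℂ, P ∉ X.I → aeval (fun i => T i ^ m) P ≠ 0 :=
    fun P hP h => hP ((hcm P).1 h)
  let W : Fin r → K := fun j => algebraMap L K (w j) * τ ^ X.wt m j
  have hWe : ∀ j, W j ^ X.e j = aeval (fun i => T i ^ m) (X.F j) := by
    intro j
    have h1 : (fun i => T i ^ m) = fun i => (τ ^ m) ^ (1 : Fin (n + 1) → ℕ) i *
        algebraMap L K (t i ^ m) := by
      funext i
      simp only [T, Pi.one_apply, pow_one, mul_pow, map_pow]
      ring
    have h2 : aeval (fun i => algebraMap L K (t i ^ m)) (X.F j) =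
        algebraMap L K (aeval (fun i => t i ^ m) (X.F j)) := aeval_algebraMap_apply K _ _
    rw [h1, aeval_wh (X.hF j), h2, ← hF.eqn j, map_pow]
    simp only [W, mul_pow, ← pow_mul, hwt j]
    ring
  have hrel : ∀ j, aeval (fun i => T i ^ m) (D j) * aeval (fun i => T i ^ m) (X.F j) =
      aeval (fun i => T i ^ m) (H j) * aeval (fun i => T i ^ m) (S j) ^ X.e j := by
    intro j
    have h1 := (hcm _).2 (hFH j)
    rw [map_sub, map_mul, map_mul, map_pow, sub_eq_zero] at h1
    exact h1
  let W' : Fin r → K := fun j => W j / aeval (fun i => T i ^ m) (S j)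
  have hW'e : ∀ j, W' j ^ X.e j =
      aeval (fun i => T i ^ m) (H j) / aeval (fun i => T i ^ m) (D j) := by
    intro j
    simp only [W', div_pow]
    rw [hWe, div_eq_div_iff (pow_ne_zero _ (hTP _ (hSI j))) (hTP _ (hDI j)), ← hrel j]
    ring
  have hW'0 : ∀ j, W' j ≠ 0 := by
    intro j h
    have h1 := hW'e j
    rw [h, zero_pow (X.he j).ne'] at h1
    exact div_ne_zero (hTP _ (hHI j)) (hTP _ (hDI j)) h1.symm
  -- the derivation
  obtain ⟨δ, hδ⟩ := cone_der (K := K) hm hF hτ hI
  have hδm : ∀ i, δ (T i ^ m) = ((m * l i : ℤ) : ℂ) • T i ^ m := by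
    intro i
    have h1 := der_mon δ (fun _ : Unit => T i) (fun _ => l i) (fun _ => hδ i) (fun _ => m)
    simpa [mul_comm] using h1
  let c : Fin r → ℤ := fun j => ((m / X.e j : ℕ) : ℤ) * (kH j - kD j)
  have hc : ∀ j, (X.e j : ℤ) * c j = m * (kH j - kD j) := by
    intro j
    have h1 : X.e j * (m / X.e j) = m := Nat.mul_div_cancel' (hem j)
    simp only [c]
    rw [← mul_assoc]
    congr 1
    exact_mod_cast h1
  have hδP : ∀ (A : MvPolynomial (Fin (n + 1)) ℂ) (k : ℤ), (∀ c ∈ A.support, ∑ i, l i * c i = k) →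
      δ (aeval (fun i => T i ^ m) A) = ((m * k : ℤ) : ℂ) • aeval (fun i => T i ^ m) A := by
    intro A k hA
    apply der_aeval δ (fun i => T i ^ m) (fun i => m * l i) hδm
    intro a ha
    rw [← hA a ha, Finset.mul_sum]
    exact Finset.sum_congr rfl fun i _ => by ring
  have hδW : ∀ j, δ (W' j) = (c j : ℂ) • W' j := by
    intro j
    apply der_root δ (W' j) (hW'0 j) (X.e j) (X.he j)
    rw [hW'e, hc j]
    have h1 := hδP (H j) (kH j) (hHom j)
    have h2 := hδP (D j) (kD j) (hDhom j)
    have h3 := hTP _ (hDI j)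
    have h4 : δ (aeval (fun i => T i ^ m) (H j) / aeval (fun i => T i ^ m) (D j) *
        aeval (fun i => T i ^ m) (D j)) = δ (aeval (fun i => T i ^ m) (H j)) := by
      rw [div_mul_cancel₀ _ h3]
    rw [δ.leibniz, h1, h2] at h4
    simp only [smul_eq_mul, Algebra.smul_def, map_intCast] at h4 ⊢
    push_cast at h4 ⊢
    apply mul_right_cancel₀ h3
    have h5 : aeval (fun i => T i ^ m) (H j) / aeval (fun i => T i ^ m) (D j) *
        aeval (fun i => T i ^ m) (D j) = aeval (fun i => T i ^ m) (H j) := div_mul_cancel₀ _ h3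
    linear_combination h4 - (m : K) * kH j * h5
  let x : Fin (n + 1) ⊕ Fin r → K := Sum.elim T W'
  let lam : Fin (n + 1) ⊕ Fin r → ℤ := Sum.elim l c
  have hx : ∀ i, δ (x i) = (lam i : ℂ) • x i := by
    rintro (i | j)
    · exact hδ i
    · exact hδW j
  -- the substitution
  let sharp : Poly n r →ₐ[ℂ] Poly n r := aeval (Sum.elim (fun i => MvPolynomial.X (Sum.inl i))
    (fun j => MvPolynomial.X (Sum.inr j) * aeval (fun i => MvPolynomial.X (Sum.inl i) ^ m) (S j)))
  have hsharp : ∀ B, aeval x (sharp B) = aeval (Sum.elim T W) B := by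
    intro B
    rw [← AlgHom.comp_apply, comp_aeval]
    congr 2
    funext i
    rcases i with i | j
    · simp [x]
    · simp only [Sum.elim_inr, map_mul, aeval_X, x, W']
      rw [← AlgHom.comp_apply, comp_aeval]
      simp only [map_pow, aeval_X, Sum.elim_inl]
      rw [div_mul_cancel₀ _ (hTP _ (hSI j))]
  have hcone : ∀ (B : Poly n r) (D : ℕ), WH X.toCov m B D →
      aeval (Sum.elim T W) B = τ ^ D * algebraMap L K (aeval (Sum.elim t w) B) := by
    intro B D hB
    have h1 : Sum.elim T W = fun i => τ ^ (Sum.elim (fun _ => 1) (X.wt m) : _ → ℕ) i *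
        algebraMap L K (Sum.elim t w i) := by
      funext i
      rcases i with i | j
      · simp only [Sum.elim_inl, T, pow_one]; ring
      · simp only [Sum.elim_inr, W]; ring
    have h2 : aeval (fun i => algebraMap L K (Sum.elim t w i)) B =
        algebraMap L K (aeval (Sum.elim t w) B) := aeval_algebraMap_apply K _ _
    rw [h1, aeval_wh hB, h2]
  have haux : ∀ A : MvPolynomial (Fin (n + 1)) ℂ,
      aeval x (aeval (fun i => MvPolynomial.X (Sum.inl i) ^ m : _ → Poly n r) A) =
        aeval (fun i => T i ^ m) A := by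
    intro A
    rw [← AlgHom.comp_apply, comp_aeval]
    simp only [map_pow, aeval_X]
    rfl
  -- a general point
  let C0 : Poly n r := sharp B0 * (∏ i, MvPolynomial.X (Sum.inl i)) * aeval (fun i => MvPolynomial.X (Sum.inl i) ^ m) X.G
  have hC0 : aeval x C0 ≠ 0 := by
    simp only [C0, map_mul, map_prod, aeval_X]
    refine mul_ne_zero (mul_ne_zero ?_ ?_) ?_
    · rw [hsharp, hcone B0 D0 hB0]
      exact mul_ne_zero (pow_ne_zero _ hτ0) ((map_ne_zero _).2 hB0ne)
    · exact Finset.prod_ne_zero_iff.2 fun i _ => hT0 i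
    · rw [haux]
      exact hTP _ X.hGI
  obtain ⟨v, hv, hvC⟩ : ∃ v : Fin (n + 1) ⊕ Fin r → ℂ,
      (∀ P : Poly n r, aeval x P = 0 → eval v P = 0) ∧ eval v C0 ≠ 0 := by
    by_contra hcon
    push Not at hcon
    apply hC0
    have h1 : C0 ∈ vanishingIdeal ℂ (zeroLocus ℂ (RingHom.ker (aeval x : Poly n r →ₐ[ℂ] K))) := by
      intro v hv
      exact hcon v fun P hP => hv P hP
    have h2 : (RingHom.ker (aeval x : Poly n r →ₐ[ℂ] K)).IsPrime := RingHom.ker_isPrime _
    rw [IsPrime.vanishingIdeal_zeroLocus] at h1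
    exact h1
  simp only [C0, map_mul, map_prod, eval_X] at hvC
  have hvB := left_ne_zero_of_mul (left_ne_zero_of_mul hvC)
  have hvu : ∀ i, v (Sum.inl i) ≠ 0 := fun i =>
    Finset.prod_ne_zero_iff.1 (right_ne_zero_of_mul (left_ne_zero_of_mul hvC)) i
      (Finset.mem_univ i)
  have hvG := right_ne_zero_of_mul hvC
  let u : Fin (n + 1) → ℂ := fun i => v (Sum.inl i)
  let v' : Fin r → ℂ := fun j => v (Sum.inr j)
  have hev : ∀ (y : Fin (n + 1) ⊕ Fin r → ℂ) (B : Poly n r), eval y (sharp B) =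
      eval (Sum.elim (fun i => y (Sum.inl i))
        (fun j => y (Sum.inr j) * eval (fun i => y (Sum.inl i) ^ m) (S j))) B := by
    intro y B
    have h1 : ∀ (z : Fin (n + 1) ⊕ Fin r → ℂ) (Q : Poly n r), eval z Q = aeval z Q :=
      fun z Q => rfl
    rw [h1, h1, ← AlgHom.comp_apply, comp_aeval]
    congr 2
    funext i
    rcases i with i | j
    · simp
    · simp only [Sum.elim_inr, map_mul, aeval_X]
      rw [← AlgHom.comp_apply, comp_aeval]
      simp only [map_pow, aeval_X]
      rfl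
  have hevG : ∀ (y : Fin (n + 1) ⊕ Fin r → ℂ) (A : MvPolynomial (Fin (n + 1)) ℂ),
      eval y (aeval (fun i => MvPolynomial.X (Sum.inl i) ^ m : _ → Poly n r) A) =
        eval (fun i => y (Sum.inl i) ^ m) A := by
    intro y A
    have h5 : ∀ Q : Poly n r, eval y Q = aeval y Q := fun Q => rfl
    rw [h5, ← AlgHom.comp_apply, comp_aeval]
    simp only [map_pow, aeval_X]
    rfl
  -- the exponents
  let M : ℕ := ∑ i, (l i).natAbs +
    ∑ j, ∑ a ∈ (S j).support, ((m : ℤ) * ∑ i, l i * a i + c j).natAbs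
  have hM1 : ∀ i, 0 ≤ l i + M := by
    intro i
    have h1 : (l i).natAbs ≤ M :=
      (Finset.single_le_sum (f := fun i => (l i).natAbs) (fun _ _ => Nat.zero_le _)
        (Finset.mem_univ i)).trans (Nat.le_add_right _ _)
    omega
  have hM2 : ∀ j, ∀ a ∈ (S j).support,
      0 ≤ (m : ℤ) * ∑ i, l i * a i + (c j + M * X.wt m j) := by
    intro j a ha
    by_cases hd : X.d j = 0
    · obtain ⟨h1, h2⟩ := hd0 j hd
      rw [h1] at ha
      have h3 : a = 0 := by
        by_contra h4
        rw [mem_support_iff, coeff_one, if_neg (Ne.symm h4)] at ha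
        exact ha rfl
      have h4 : c j = 0 := by simp only [c, h2, mul_zero]
      rw [h3, h4]
      simp
      positivity
    · have h1 : 1 ≤ X.wt m j := by
        rw [Nat.one_le_iff_ne_zero]
        intro h
        have h2 := hwt j
        rw [h, zero_mul] at h2
        exact (Nat.mul_ne_zero hm.ne' hd) h2.symm
      have h2 : ((m : ℤ) * ∑ i, l i * a i + c j).natAbs ≤ M := by
        refine le_trans ?_ (Nat.le_add_left _ _)
        refine le_trans ?_ (Finset.single_le_sum
          (f := fun j => ∑ a ∈ (S j).support, ((m : ℤ) * ∑ i, l i * a i + c j).natAbs)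
          (fun _ _ => Nat.zero_le _) (Finset.mem_univ j))
        exact Finset.single_le_sum (f := fun a : Fin (n + 1) →₀ ℕ =>
          ((m : ℤ) * ∑ i, l i * a i + c j).natAbs) (fun _ _ => Nat.zero_le _) ha
      have h3 : (M : ℤ) ≤ M * X.wt m j := by
        have : (M : ℤ) * 1 ≤ M * X.wt m j :=
          mul_le_mul_of_nonneg_left (by exact_mod_cast h1) (by positivity)
        linarith
      omega
  -- the curve
  have hq : ∀ j, ∃ q : Polynomial ℂ, ∀ z : ℂ, z ≠ 0 →
      q.eval z = z ^ (c j + M * X.wt m j) * eval (fun i => (z ^ l i * u i) ^ m) (S j) :=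
    fun j => laurent_poly (S j) l u m _ (hM2 j)
  choose q hq using hq
  let p : Fin (n + 1) → Polynomial ℂ := fun i =>
    Polynomial.C (u i) * Polynomial.X ^ (l i + M).toNat
  let s : Fin r → Polynomial ℂ := fun j => Polynomial.C (v' j) * q j
  have hp : ∀ i (z : ℂ), z ≠ 0 → (p i).eval z = z ^ M * (z ^ l i * u i) := by
    intro i z hz
    simp only [p, Polynomial.eval_mul, Polynomial.eval_C, Polynomial.eval_pow, Polynomial.eval_X]
    rw [← zpow_natCast z (l i + M).toNat, Int.toNat_of_nonneg (hM1 i), zpow_add₀ hz, zpow_natCast]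
    ring
  have hs : ∀ j (z : ℂ), z ≠ 0 → (s j).eval z = (z ^ M) ^ X.wt m j *
      (z ^ c j * v' j * eval (fun i => (z ^ l i * u i) ^ m) (S j)) := by
    intro j z hz
    simp only [s, Polynomial.eval_mul, Polynomial.eval_C, hq j z hz]
    rw [zpow_add₀ hz]
    have h1 : z ^ ((M : ℤ) * X.wt m j) = (z ^ M) ^ X.wt m j := by
      rw [← pow_mul, ← zpow_natCast]
      push_cast
      rfl
    rw [h1]
    ring
  have hevB : ∀ (B : Poly n r) (D : ℕ), WH X.toCov m B D → ∀ z : ℂ, z ≠ 0 →
      eval (Sum.elim (fun i => (p i).eval z) (fun j => (s j).eval z)) B =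
        (z ^ M) ^ D * eval (fun i => z ^ lam i * v i) (sharp B) := by
    intro B D hB z hz
    rw [hev]
    have h1 : (Sum.elim (fun i => (p i).eval z) (fun j => (s j).eval z) :
        Fin (n + 1) ⊕ Fin r → ℂ) = fun i => (z ^ M) ^ (Sum.elim (fun _ => 1) (X.wt m) : _ → ℕ) i *
          (Sum.elim (fun i => z ^ l i * u i)
            (fun j => z ^ c j * v' j * eval (fun i => (z ^ l i * u i) ^ m) (S j))) i := by
      funext i
      rcases i with i | j
      · simp only [Sum.elim_inl, pow_one, hp i z hz]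
      · simp only [Sum.elim_inr, hs j z hz]
    rw [h1]
    exact aeval_wh hB (z ^ M) _
  have hGm : GmCurve X.toCov m t w p s := by
    refine ⟨fun z hz => ⟨?_, ?_, ?_⟩, 2, 1, two_ne_zero, one_ne_zero, ?_⟩
    · intro h
      have h1 := congrFun h 0
      simp only [hp 0 z hz, Pi.zero_apply] at h1
      exact mul_ne_zero (pow_ne_zero _ hz) (mul_ne_zero (zpow_ne_zero _ hz) (hvu 0)) h1
    · intro B D hB hBt
      rw [hevB B D hB z hz]
      have h1 : aeval x (sharp B) = 0 := by
        rw [hsharp, hcone B D hB, hBt, map_zero, mul_zero]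
      rw [twist_point δ x lam hx v hv z hz _ h1, mul_zero]
    · have h1 : (fun i => (p i).eval z ^ m) = fun i => (z ^ (M * m)) ^
          (1 : Fin (n + 1) → ℕ) i * (z ^ l i * u i) ^ m := by
        funext i
        rw [hp i z hz, Pi.one_apply, pow_one, mul_pow, pow_mul]
      have h2 := aeval_wh X.hG (z ^ (M * m)) (fun i => (z ^ l i * u i) ^ m)
      rw [← h1] at h2
      change aeval (fun i => (p i).eval z ^ m) X.G ≠ 0
      rw [h2]
      refine mul_ne_zero (pow_ne_zero _ (pow_ne_zero _ hz)) ?_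
      change eval (fun i => (z ^ l i * u i) ^ m) X.G ≠ 0
      -- on the component, `G` is homogeneous for the one-parameter group
      have hrelG : ∀ P ∈ X.I, eval (fun i => (z ^ l i * u i) ^ m) P = 0 ∧
          eval (fun i => u i ^ m) P = 0 := by
        intro P hP
        have h4 : aeval x (aeval (fun i => MvPolynomial.X (Sum.inl i) ^ m : _ → Poly n r) P) =
            0 := by
          rw [haux]
          exact (hcm P).2 hP
        constructor
        · have h5 := twist_point δ x lam hx v hv z hz _ h4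
          rw [hevG] at h5
          exact h5
        · have h5 := hv _ h4
          rw [hevG] at h5
          exact h5
      obtain ⟨h6, h7⟩ := hrelG _ hG
      rw [map_sub, sub_eq_zero] at h6 h7
      rw [h6, eval_twist (wp l kG X.G) l u m kG (wp_hom l kG X.G) z hz, ← h7]
      refine mul_ne_zero (zpow_ne_zero _ hz) ?_
      rw [hevG] at hvG
      exact hvG
    · rintro ⟨a, ha, h1, -⟩
      have h2 : ∀ i, a * 2 ^ M * (2 : ℂ) ^ l i = 1 := by
        intro i
        have h3 := h1 i
        simp only [hp i 1 one_ne_zero, hp i 2 two_ne_zero, one_pow, one_zpow, one_mul] at h3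
        apply mul_right_cancel₀ (hvu i)
        rw [one_mul]
        change a * 2 ^ M * (2 : ℂ) ^ l i * u i = u i
        linear_combination -h3
      have h3 : (2 : ℂ) ^ l i1 = (2 : ℂ) ^ l i2 := by
        apply mul_left_cancel₀ (mul_ne_zero ha (pow_ne_zero M (two_ne_zero : (2 : ℂ) ≠ 0)))
        rw [h2, h2]
      have h4 : (2 : ℝ) ^ l i1 = (2 : ℝ) ^ l i2 := by
        have h5 := congrArg norm h3
        simpa [norm_zpow] using h5
      exact hl (zpow_right_injective₀ (by norm_num) (by norm_num) h4)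
  have hfin := hcurves p s hGm 1 one_ne_zero
  rw [hevB B0 D0 hB0 1 one_ne_zero] at hfin
  simp only [one_pow, one_zpow, one_mul] at hfin
  exact hvB hfin

end Pool.Agent.Y721.KZ
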