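import Pool.Agent.Y721.KZ.Zgm
import Pool.Agent.Y108.KC.Ngt

/-!
`Pool.Agent.Y192.KC.St_zngt`: a cover with a one-parameter group is not of log general type.
-/

set_option autoImplicit false
set_option linter.unusedVariables false
set_option linter.unusedSectionVars false

open MvPolynomial FF Pool.Agent.W602.GT IntermediateField Pool.Agent.Y192.KC Pool.Agent.Y270.KC
open Pool.Agent.Y108.KC

namespace Pool.Agent.Y721.KZ

variable {n r : ℕ} {X : ZCov n r} {m : ℕ} {L : Type} [Field L] [Algebra ℂ L]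
  {t : Fin (n + 1) → L} {w : Fin r → L}

/-- the derivation of the function field which is given by a one-parameter group -/
theorem field_der (hm : 0 < m) (hF : ZField X m L t w)
    {l : Fin (n + 1) → ℤ} (hl : ∀ f ∈ X.I, ∀ k, wp l k f ∈ X.I) :
    ∃ D : Derivation ℂ L L, ∀ i, Eig D (l i - l 0) (t i / t 0) := by
  let K := FractionRing (Polynomial L)
  let τ : K := algebraMap (Polynomial L) K Polynomial.X
  have hτ : Transcendental L τ := by
    have h1 : Transcendental L (Polynomial.X : Polynomial L) := Polynomial.transcendental_X L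
    exact (transcendental_algebraMap_iff (IsFractionRing.injective (Polynomial L) K)).2 h1
  have hτ0 : τ ≠ 0 := by
    intro h
    rw [h] at hτ
    exact hτ isAlgebraic_zero
  obtain ⟨δ, hδ⟩ := cone_der (K := K) hm hF hτ hl
  obtain ⟨π, hπ⟩ := (Algebra.linearMap L K).exists_leftInverse_of_injective
    (LinearMap.ker_eq_bot.2 (algebraMap L K).injective)
  have hπ1 : ∀ x : L, π (algebraMap L K x) = x := by
    intro x
    have := congrArg (fun f => f x) hπ
    exact this
  let D : Derivation ℂ L L := Derivation.mk'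
    { toFun := fun x => π (δ (algebraMap L K x))
      map_add' := fun x y => by rw [map_add, map_add, map_add]
      map_smul' := fun c x => by
        rw [Algebra.smul_def, map_mul, ← IsScalarTower.algebraMap_apply ℂ L K, ← Algebra.smul_def,
          Derivation.map_smul, RingHom.id_apply, ← IsScalarTower.algebraMap_smul L c (δ _),
          map_smul, smul_eq_mul, Algebra.smul_def] }
    (fun x y => by
      change π (δ (algebraMap L K (x * y))) = x • π (δ (algebraMap L K y)) +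
        y • π (δ (algebraMap L K x))
      rw [map_mul, δ.leibniz, map_add, smul_eq_mul, smul_eq_mul, ← Algebra.smul_def,
        ← Algebra.smul_def, map_smul, map_smul])
  refine ⟨D, fun i => ?_⟩
  have h0 : algebraMap L K (t 0) * τ ≠ 0 :=
    mul_ne_zero ((map_ne_zero _).2 (t_ne hm hF 0)) hτ0
  have hE : ∀ i, Eig δ (l i) (algebraMap L K (t i) * τ) := by
    intro i
    unfold Eig
    rw [hδ, Algebra.smul_def, map_intCast]
  have h1 : Eig δ (l i + -(l 0)) ((algebraMap L K (t i) * τ) * (algebraMap L K (t 0) * τ)⁻¹) :=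
    (hE i).mul (hE 0).inv
  have h2 : algebraMap L K (t i / t 0) =
      (algebraMap L K (t i) * τ) * (algebraMap L K (t 0) * τ)⁻¹ := by
    rw [map_div₀, ← div_eq_mul_inv, mul_div_mul_right _ _ hτ0]
  rw [← h2, ← sub_eq_add_neg] at h1
  change π (δ (algebraMap L K (t i / t 0))) = ((l i - l 0 : ℤ) : L) * (t i / t 0)
  unfold Eig at h1
  rw [h1, ← map_intCast (algebraMap L K), ← map_mul, hπ1]

/-- the values at `t i / t 0` -/
theorem ev_div (hm : 0 < m) (hF : ZField X m L t w) {A : MvPolynomial (Fin (n + 1)) ℂ} {k : ℕ}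
    (hA : A.IsHomogeneous k) :
    aeval (fun i => t i ^ m) A = (t 0 ^ m) ^ k * aeval (fun i => (t i / t 0) ^ m) A := by
  have h0 := t_ne hm hF 0
  have h1 : (fun i => t i ^ m) = fun i => t 0 ^ m * (t i / t 0) ^ m := by
    funext i
    rw [← mul_pow]
    congr 1
    field_simp
  rw [h1, hom_aeval hA]

theorem ev_div_mem (hm : 0 < m) (hF : ZField X m L t w) {A : MvPolynomial (Fin (n + 1)) ℂ}
    (hA : A ∈ X.I) : aeval (fun i => (t i / t 0) ^ m) A = 0 := by
  rw [← sum_homogeneousComponent A, map_sum]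
  refine Finset.sum_eq_zero fun k _ => ?_
  have h1 := (hF.van _ k (homogeneousComponent_isHomogeneous k A)).2 (X.hom A hA k)
  rw [ev_div hm hF (homogeneousComponent_isHomogeneous k A)] at h1
  exact (mul_eq_zero.1 h1).resolve_left (pow_ne_zero _ (pow_ne_zero _ (t_ne hm hF 0)))

theorem ev_div_ne (hm : 0 < m) (hF : ZField X m L t w) {A : MvPolynomial (Fin (n + 1)) ℂ} {k : ℕ}
    (hA : A.IsHomogeneous k) (h : A ∉ X.I) : aeval (fun i => (t i / t 0) ^ m) A ≠ 0 := by
  intro h0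
  apply ev_ne hF hA h
  rw [ev_div hm hF hA, h0, mul_zero]

theorem wp_isHom {l : Fin (n + 1) → ℤ} {k : ℤ} {A : MvPolynomial (Fin (n + 1)) ℂ} {q : ℕ}
    (hA : A.IsHomogeneous q) : (wp l k A).IsHomogeneous q := by
  classical
  unfold wp
  refine IsHomogeneous.sum _ _ _ fun c hc => ?_
  have h1 := hA (mem_support_iff.1 (Finset.mem_filter.1 hc).1)
  apply isHomogeneous_monomial
  rw [Finsupp.degree_eq_weight_one]
  exact h1

theorem zcore (hm : 0 < m) (hem : ∀ j, X.e j ∣ m) (hF : ZField X m L t w)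
    (l : Fin (n + 1) → ℤ) (hl : ∃ i j, l i ≠ l j) (hI : ∀ f ∈ X.I, ∀ k, wp l k f ∈ X.I)
    (kG : ℤ) (hkG : X.G - wp l kG X.G ∈ X.I) (Dn H S : Fin r → MvPolynomial (Fin (n + 1)) ℂ)
    (hDI : ∀ j, Dn j ∉ X.I) (hHI : ∀ j, H j ∉ X.I) (hSI : ∀ j, S j ∉ X.I)
    (aD aH aS : Fin r → ℕ) (haD : ∀ j, (Dn j).IsHomogeneous (aD j))
    (haH : ∀ j, (H j).IsHomogeneous (aH j)) (haS : ∀ j, (S j).IsHomogeneous (aS j))
    (hFS : ∀ j, Dn j * X.F j - H j * S j ^ X.e j ∈ X.I) (kD kH : Fin r → ℤ)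
    (hkD : ∀ j, ∀ c ∈ (Dn j).support, ∑ i, l i * c i = kD j)
    (hkH : ∀ j, ∀ c ∈ (H j).support, ∑ i, l i * c i = kH j) :
    ∃ (δ : Derivation ℂ L L) (σ : L), σ ≠ 0 ∧ δ σ = σ ∧ (consts δ)⟮σ⟯ = ⊤ ∧
      ∀ P : Place ℂ L, (∀ c, δ c = 0 → c ≠ 0 → P.ord c = 0) → P.ord σ = 0 →
        (∀ i, P.ord (t i) = P.ord (t 0)) ∧
        P.ord (aeval (fun i => t i ^ m) X.G) = m * X.q * P.ord (t 0) := by
  classical
  have hchar := charL (L := L)
  have ne := t_ne hm hF 0
  set z : Fin (n + 1) → L := fun i => t i / t 0 with hz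
  have hzne : ∀ i, z i ≠ 0 := fun i => div_ne_zero (t_ne hm hF i) ne
  have htz : ∀ i, t i = t 0 * z i := fun i => by rw [hz]; field_simp
  set ρ' : Fin r → L := fun j => w j / t 0 ^ X.wt m j with hρ'
  have hwt : ∀ j, X.wt m j * X.e j = m * X.d j := fun j =>
    Nat.div_mul_cancel ((hem j).mul_right _)
  have hρe : ∀ j, ρ' j ^ X.e j = aeval (fun i => z i ^ m) (X.F j) := by
    intro j
    rw [hρ']
    simp only
    rw [div_pow, ← pow_mul, hwt, hF.eqn, ev_div hm hF (X.hF j), ← pow_mul]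
    have : t 0 ^ (m * X.d j) ≠ 0 := pow_ne_zero _ ne
    exact mul_div_cancel_left₀ _ this
  have hFz : ∀ j, aeval (fun i => z i ^ m) (X.F j) ≠ 0 := fun j =>
    ev_div_ne hm hF (X.hF j) (X.hFI j)
  have hGz : aeval (fun i => z i ^ m) X.G ≠ 0 := ev_div_ne hm hF X.hG X.hGI
  have hHz : ∀ j, aeval (fun i => z i ^ m) (H j) ≠ 0 := fun j => ev_div_ne hm hF (haH j) (hHI j)
  have hDz0 : ∀ j, aeval (fun i => z i ^ m) (Dn j) ≠ 0 := fun j =>
    ev_div_ne hm hF (haD j) (hDI j)
  have hSz : ∀ j, aeval (fun i => z i ^ m) (S j) ≠ 0 := fun j => ev_div_ne hm hF (haS j) (hSI j)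
  obtain ⟨D, hDz⟩ := field_der hm hF hI
  have hDzm : ∀ i, Eig D (m * (l i - l 0)) (z i ^ m) := fun i => (hDz i).pow m
  have hDA : ∀ (A : MvPolynomial (Fin (n + 1)) ℂ) (kA : ℤ) (dA : ℕ), A.IsHomogeneous dA →
      (∀ c ∈ A.support, ∑ i, l i * c i = kA) →
      Eig D (m * (kA - l 0 * dA)) (aeval (fun i => z i ^ m) A) := by
    intro A kA dA hA hkA
    refine Eig.aeval hDzm fun c hc => ?_
    have h1 := hkA c hc
    have h2 := sum_of_hom hA hc
    have h3 : ∑ i, (c i : ℤ) = dA := by exact_mod_cast h2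
    calc ∑ i, m * (l i - l 0) * (c i : ℤ)
        = m * (∑ i, l i * c i - l 0 * ∑ i, (c i : ℤ)) := by
          rw [Finset.mul_sum, ← Finset.sum_sub_distrib, Finset.mul_sum]
          exact Finset.sum_congr rfl fun i _ => by ring
      _ = _ := by rw [h1, h3]
  -- the functions `w'`
  set w' : Fin r → L := fun j => ρ' j / aeval (fun i => z i ^ m) (S j) with hw'
  have hFHS : ∀ j, aeval (fun i => z i ^ m) (Dn j) * aeval (fun i => z i ^ m) (X.F j) =
      aeval (fun i => z i ^ m) (H j) * aeval (fun i => z i ^ m) (S j) ^ X.e j := by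
    intro j
    have h1 := ev_div_mem hm hF (hFS j)
    rw [map_sub, map_mul, map_mul, map_pow, sub_eq_zero] at h1
    exact h1
  have hw'e : ∀ j, w' j ^ X.e j =
      aeval (fun i => z i ^ m) (H j) * (aeval (fun i => z i ^ m) (Dn j))⁻¹ := by
    intro j
    rw [hw']
    simp only
    rw [div_pow, hρe, ← div_eq_mul_inv, div_eq_div_iff (pow_ne_zero _ (hSz j)) (hDz0 j),
      ← hFHS j]
    ring
  have hw'0 : ∀ j, w' j ≠ 0 := fun j h => mul_ne_zero (hHz j) (inv_ne_zero (hDz0 j))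
    (by rw [← hw'e, h, zero_pow (X.he j).ne'])
  set cj : Fin r → ℤ := fun j => ((m / X.e j : ℕ) : ℤ) *
    ((kH j - l 0 * aH j) - (kD j - l 0 * aD j)) with hcj
  have hDw : ∀ j, Eig D (cj j) (w' j) := by
    intro j
    refine Eig.root (hw'0 j) (X.he j) ?_
    rw [hw'e]
    have h1 : (X.e j : ℤ) * cj j = m * (kH j - l 0 * aH j) + -(m * (kD j - l 0 * aD j)) := by
      have h2 : ((m / X.e j : ℕ) : ℤ) * X.e j = m := by
        exact_mod_cast Nat.div_mul_cancel (hem j)
      rw [hcj]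
      simp only
      rw [← mul_assoc, mul_comm (X.e j : ℤ), h2]
      ring
    rw [h1]
    exact (hDA _ _ _ (haH j) (hkH j)).mul (hDA _ _ _ (haD j) (hkD j)).inv
  -- all generators and their weights
  set ρ : Fin (n + 1) ⊕ Fin r → L := Sum.elim z w' with hρ
  set a : Fin (n + 1) ⊕ Fin r → ℤ := Sum.elim (fun i => l i - l 0) cj with ha
  have hρ0 : ∀ x, ρ x ≠ 0 := by
    rintro (i | j)
    · exact hzne i
    · exact hw'0 j
  have hDρ : ∀ x, Eig D (a x) (ρ x) := by
    rintro (i | j)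
    · exact hDz i
    · exact hDw j
  obtain ⟨g, hg⟩ : ∃ g : ℤ, Ideal.span (Set.range a) = Ideal.span {g} :=
    (IsPrincipalIdealRing.principal (Ideal.span (Set.range a))).principal
  have hdvd : ∀ x, g ∣ a x := by
    intro x
    rw [← Ideal.mem_span_singleton, ← hg]
    exact Ideal.subset_span ⟨x, rfl⟩
  have hg0 : g ≠ 0 := by
    rintro rfl
    obtain ⟨i, j, hij⟩ := hl
    have h1 := hdvd (Sum.inl i)
    have h2 := hdvd (Sum.inl j)
    rw [zero_dvd_iff] at h1 h2
    change l i - l 0 = 0 at h1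
    change l j - l 0 = 0 at h2
    omega
  obtain ⟨b, hb⟩ : ∃ b : Fin (n + 1) ⊕ Fin r → ℤ, ∑ x, b x * a x = g := by
    have h1 : g ∈ Ideal.span (Set.range a) := by
      rw [hg]; exact Ideal.mem_span_singleton_self g
    obtain ⟨b, hb⟩ := (Submodule.mem_span_range_iff_exists_fun ℤ).1 h1
    exact ⟨b, hb⟩
  choose β hβ using hdvd
  set σ : L := ∏ x, ρ x ^ b x with hσ
  have hσ0 : σ ≠ 0 := Finset.prod_ne_zero_iff.2 fun x _ => zpow_ne_zero _ (hρ0 x)
  have hDσ : Eig D g σ := by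
    rw [← hb]
    exact Eig.prod _ _ _ fun x _ => (hDρ x).zpow (b x)
  have hgL : (g : L) ≠ 0 := by exact_mod_cast hg0
  set δ : Derivation ℂ L L := ((g : ℂ)⁻¹) • D with hδ
  have hδD : ∀ f, δ f = (g : L)⁻¹ * D f := by
    intro f
    rw [hδ, Derivation.smul_apply, Algebra.smul_def]
    simp
  have hδσ : δ σ = σ := by
    rw [hδD, show D σ = (g : L) * σ from hDσ]
    field_simp
  have hδ0 : ∀ f, Eig D 0 f → δ f = 0 := by
    intro f hf
    rw [hδD, show D f = ((0 : ℤ) : L) * f from hf]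
    simp
  -- eigenvectors of weight `β * g`
  have hquot : ∀ (f : L) (k : ℤ), Eig D (g * k) f → δ (f / σ ^ k) = 0 := by
    intro f k hf
    apply hδ0
    rw [div_eq_mul_inv]
    have h1 := hf.mul (hDσ.zpow k).inv
    have h2 : g * k + -(k * g) = 0 := by ring
    rwa [h2] at h1
  refine ⟨δ, σ, hσ0, hδσ, ?_, ?_⟩
  · -- generation
    have hmem : ∀ (f : L) (k : ℤ), Eig D (g * k) f → f ∈ (consts δ)⟮σ⟯ := by
      intro f k hf
      have h1 : f = (f / σ ^ k) * σ ^ k := by
        have : σ ^ k ≠ 0 := zpow_ne_zero _ hσ0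
        field_simp
      rw [h1]
      refine mul_mem ?_ (zpow_mem (IntermediateField.mem_adjoin_simple_self _ _) _)
      exact (consts δ)⟮σ⟯.algebraMap_mem (⟨f / σ ^ k, hquot f k hf⟩ : consts δ)
    have hρm : ∀ x, ρ x ∈ (consts δ)⟮σ⟯ := fun x => hmem _ (β x) (by rw [← hβ]; exact hDρ x)
    have hle : (⊤ : IntermediateField ℂ L) ≤ ((consts δ)⟮σ⟯).restrictScalars ℂ := by
      rw [← hF.gen, IntermediateField.adjoin_le_iff]
      rintro _ (⟨i, rfl⟩ | ⟨j, rfl⟩)
      · exact hρm (Sum.inl i)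
      · change ρ' j ∈ (consts δ)⟮σ⟯
        have h1 : ρ' j = w' j * aeval (fun i => z i ^ m) (S j) := by
          rw [hw']
          simp only
          rw [div_mul_cancel₀ _ (hSz j)]
        rw [h1]
        refine mul_mem (hρm (Sum.inr j)) ?_
        rw [aeval_def, eval₂_eq']
        refine sum_mem fun c _ => mul_mem ?_ (prod_mem fun i _ =>
          pow_mem (pow_mem (hρm (Sum.inl i)) _) _)
        exact (((consts δ)⟮σ⟯).restrictScalars ℂ).algebraMap_mem _
    rw [eq_top_iff]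
    intro x _
    exact hle (IntermediateField.mem_top (x := x))
  · -- places
    intro P hP hPσ
    have hord : ∀ (f : L) (k : ℤ), f ≠ 0 → Eig D (g * k) f → P.ord f = 0 := by
      intro f k hf0 hf
      have hs : σ ^ k ≠ 0 := zpow_ne_zero _ hσ0
      have h1 := hP _ (hquot f k hf) (div_ne_zero hf0 hs)
      rw [P.ord_div hf0 hs, P.ord_zpow, hPσ] at h1
      omega
    have hti : ∀ i, P.ord (t i) = P.ord (t 0) := by
      intro i
      have h1 := hord (z i) (β (Sum.inl i)) (hzne i) (by rw [← hβ]; exact hDz i)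
      rw [htz i, P.ord_mul ne (hzne i), h1, add_zero]
    refine ⟨hti, ?_⟩
    have hGw : aeval (fun i => z i ^ m) X.G = aeval (fun i => z i ^ m) (wp l kG X.G) := by
      have h1 := ev_div_mem hm hF hkG
      rw [map_sub, sub_eq_zero] at h1
      exact h1
    have h1 := hDA (wp l kG X.G) kG X.q (wp_isHom X.hG) (wp_hom l kG X.G)
    rw [← hGw] at h1
    have hwG0 : wp l kG X.G ≠ 0 := by
      intro h
      rw [h, map_zero] at hGw
      exact hGz hGw
    obtain ⟨c, hc⟩ := MvPolynomial.ne_zero_iff.1 hwG0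
    have hcs : c ∈ (wp l kG X.G).support := mem_support_iff.2 hc
    have h2 : g ∣ m * (kG - l 0 * X.q) := by
      refine Dvd.dvd.mul_left ?_ _
      have h3 : kG - l 0 * X.q = ∑ i, (l i - l 0) * (c i : ℤ) := by
        have h4 : ∑ i, (c i : ℤ) = X.q := by exact_mod_cast sum_of_hom (wp_isHom X.hG) hcs
        rw [← wp_hom l kG X.G c hcs, ← h4, Finset.mul_sum, ← Finset.sum_sub_distrib]
        exact Finset.sum_congr rfl fun i _ => by ring
      rw [h3]
      refine Finset.dvd_sum fun i _ => Dvd.dvd.mul_right ?_ _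
      exact ⟨β (Sum.inl i), hβ (Sum.inl i)⟩
    obtain ⟨k, hk⟩ := h2
    rw [hk] at h1
    have h3 := hord _ k hGz h1
    rw [ev_div hm hF X.hG, P.ord_mul (pow_ne_zero _ (pow_ne_zero _ ne)) hGz, h3, P.ord_pow,
      P.ord_pow]
    ring

theorem t_zngt : St_zngt := by
  intro n r X m hm hem hRed L _ _ t w hF d
  obtain ⟨l, hl, hI, ⟨kG, hkG⟩, hH⟩ := hRed
  choose D H S hDI hHI hSI hDhom hHhom haD haH haS hFS using hH
  choose kD hkD using hDhom
  choose kH hkH using hHhom
  choose aD haD using haD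
  choose aH haH using haH
  choose aS haS using haS
  obtain ⟨δ, σ, h1, h2, h3, h4⟩ := zcore hm hem hF l hl hI kG hkG D H S hDI hHI hSI aD aH aS
    haD haH haS hFS kD kH hkD hkH
  refine not_log_gt δ h1 h2 h3 fun P hP hPσ hoff => ?_
  obtain ⟨h5, h6⟩ := h4 P hP hPσ
  have := hoff (P.ord (t 0)) (fun i => (h5 i).ge) ⟨0, rfl⟩
  rw [h6] at this
  exact lt_irrefl _ this

end Pool.Agent.Y721.KZ
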