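import Pool.Agent.Y721.KZ.Rel
import Pool.Agent.Y270.KC.Red
import Pool.Agent.Y192.KC.ZDefs

/-!
The cone over a cover of a projective variety, and one-parameter groups.
-/

set_option autoImplicit false
set_option linter.unusedVariables false
set_option linter.unusedSectionVars false

open MvPolynomial Pool.Agent.Y192.KC Pool.Agent.Y270.KC

namespace Pool.Agent.Y721.KZ

/-- the vector field of the one-parameter group -/
noncomputable def El {n : ℕ} (l : Fin (n + 1) → ℤ) (f : MvPolynomial (Fin (n + 1)) ℂ) :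
    MvPolynomial (Fin (n + 1)) ℂ :=
  ∑ i, C (l i : ℂ) * (X i * pderiv i f)

theorem El_eq {n : ℕ} (l : Fin (n + 1) → ℤ) (f : MvPolynomial (Fin (n + 1)) ℂ) :
    El l f = ∑ c ∈ f.support, C ((∑ i, l i * c i : ℤ) : ℂ) * monomial c (coeff c f) := by
  classical
  unfold El
  conv_lhs => rw [f.as_sum]
  simp only [map_sum, Finset.mul_sum]
  rw [Finset.sum_comm]
  refine Finset.sum_congr rfl fun c _ => ?_
  push_cast
  rw [map_sum, Finset.sum_mul]
  refine Finset.sum_congr rfl fun i _ => ?_
  rw [X_mul_pderiv_monomial, nsmul_eq_mul]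
  simp only [map_mul, map_natCast]
  ring

theorem El_wp {n : ℕ} (l : Fin (n + 1) → ℤ) (f : MvPolynomial (Fin (n + 1)) ℂ) :
    El l f = ∑ k ∈ f.support.image (fun c => ∑ i, l i * (c i : ℤ)), C (k : ℂ) * wp l k f := by
  classical
  rw [El_eq, ← Finset.sum_fiberwise_of_maps_to (t := f.support.image
    (fun c => ∑ i, l i * (c i : ℤ))) (g := fun c => ∑ i, l i * (c i : ℤ))
    (fun c hc => Finset.mem_image_of_mem _ hc)]
  refine Finset.sum_congr rfl fun k _ => ?_
  unfold wp
  rw [Finset.mul_sum]
  refine Finset.sum_congr (by congr) fun c hc => ?_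
  rw [(Finset.mem_filter.1 hc).2]

theorem El_mem {n : ℕ} {I : Ideal (MvPolynomial (Fin (n + 1)) ℂ)} {l : Fin (n + 1) → ℤ}
    (h : ∀ f ∈ I, ∀ k, wp l k f ∈ I) {f : MvPolynomial (Fin (n + 1)) ℂ} (hf : f ∈ I) :
    El l f ∈ I := by
  rw [El_wp]
  exact Ideal.sum_mem _ fun k _ => I.mul_mem_left _ (h f hf k)

section cone

variable {n r : ℕ} {X : ZCov n r} {m : ℕ} {L : Type} [Field L] [Algebra ℂ L]
  {t : Fin (n + 1) → L} {w : Fin r → L}

theorem t_ne (hm : 0 < m) (hF : ZField X m L t w) (i : Fin (n + 1)) : t i ≠ 0 := by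
  intro h
  apply X.hX i
  rw [← hF.van (MvPolynomial.X i) 1 (isHomogeneous_X _ _), aeval_X, h, zero_pow hm.ne']

theorem ev_ne (hF : ZField X m L t w) {f : MvPolynomial (Fin (n + 1)) ℂ} {k : ℕ}
    (hf : f.IsHomogeneous k) (h : f ∉ X.I) : aeval (fun i => t i ^ m) f ≠ 0 := fun h0 =>
  h ((hF.van f k hf).1 h0)

variable {K : Type} [Field K] [Algebra ℂ K] [Algebra L K] [IsScalarTower ℂ L K]

/-- the relations of the coordinates on the cone -/
theorem cone_mem (hm : 0 < m) (hF : ZField X m L t w) {τ : K} (hτ : Transcendental L τ)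
    (P : MvPolynomial (Fin (n + 1)) ℂ) :
    aeval (fun i => (algebraMap L K (t i) * τ) ^ m) P = 0 ↔ P ∈ X.I := by
  classical
  have h1 : ∀ k, aeval (fun i => (algebraMap L K (t i) * τ) ^ m) (homogeneousComponent k P) =
      algebraMap L K (aeval (fun i => t i ^ m) (homogeneousComponent k P)) * τ ^ (m * k) := by
    intro k
    have h1 : (fun i => (algebraMap L K (t i) * τ) ^ m) = fun i =>
        (τ ^ m) ^ (1 : Fin (n + 1) → ℕ) i * algebraMap L K (t i ^ m) := by
      funext i
      simp only [Pi.one_apply, pow_one, mul_pow, map_pow]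
      ring
    have h2 : aeval (fun i => algebraMap L K (t i ^ m)) (homogeneousComponent k P) =
        algebraMap L K (aeval (fun i => t i ^ m) (homogeneousComponent k P)) :=
      aeval_algebraMap_apply K _ _
    rw [h1, aeval_wh (homogeneousComponent_isHomogeneous k P), h2, ← pow_mul]
    ring
  have h2 : aeval (fun i => (algebraMap L K (t i) * τ) ^ m) P =
      ∑ k ∈ Finset.range (P.totalDegree + 1),
        algebraMap L K (aeval (fun i => t i ^ m) (homogeneousComponent k P)) * τ ^ (m * k) := by
    conv_lhs => rw [← sum_homogeneousComponent P]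
    rw [map_sum]
    exact Finset.sum_congr rfl fun k _ => h1 k
  constructor
  · intro h
    rw [h2] at h
    let q : Polynomial L := ∑ k ∈ Finset.range (P.totalDegree + 1),
      Polynomial.monomial (m * k) (aeval (fun i => t i ^ m) (homogeneousComponent k P))
    have hq : Polynomial.aeval τ q = 0 := by
      rw [← h, map_sum]
      refine Finset.sum_congr rfl fun k _ => ?_
      rw [Polynomial.aeval_monomial]
    have hq0 : q = 0 := (transcendental_iff.1 hτ) q hq
    have h3 : ∀ k ∈ Finset.range (P.totalDegree + 1), homogeneousComponent k P ∈ X.I := by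
      intro k hk
      rw [← hF.van _ k (homogeneousComponent_isHomogeneous k P)]
      have h4 : q.coeff (m * k) = aeval (fun i => t i ^ m) (homogeneousComponent k P) := by
        simp only [q, Polynomial.finsetSum_coeff, Polynomial.coeff_monomial]
        rw [Finset.sum_eq_single k]
        · rw [if_pos rfl]
        · intro k' _ hk'
          rw [if_neg]
          intro h5
          exact hk' (Nat.eq_of_mul_eq_mul_left hm h5)
        · intro h5
          exact absurd hk h5
      rw [← h4, hq0, Polynomial.coeff_zero]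
    rw [← sum_homogeneousComponent P]
    exact Ideal.sum_mem _ h3
  · intro h
    rw [h2]
    refine Finset.sum_eq_zero fun k _ => ?_
    rw [(hF.van _ k (homogeneousComponent_isHomogeneous k P)).2 (X.hom P h k), map_zero, zero_mul]

/-- the derivation of the cone which is given by a one-parameter group -/
theorem cone_der (hm : 0 < m) (hF : ZField X m L t w) {τ : K} (hτ : Transcendental L τ)
    {l : Fin (n + 1) → ℤ} (hl : ∀ f ∈ X.I, ∀ k, wp l k f ∈ X.I) :
    ∃ δ : Derivation ℂ K K, ∀ i,
      δ (algebraMap L K (t i) * τ) = (l i : ℂ) • (algebraMap L K (t i) * τ) := by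
  obtain ⟨δ, hδ⟩ := der_of_rel (fun i => (algebraMap L K (t i) * τ) ^ m)
    (fun i => (((m * l i : ℤ) : ℂ)) • (algebraMap L K (t i) * τ) ^ m) (by
      intro P hP
      have h1 := (cone_mem hm hF hτ P).1 hP
      have h2 := (cone_mem hm hF hτ (El l P)).2 (El_mem hl h1)
      unfold El at h2
      rw [map_sum] at h2
      unfold Phi
      have h3 : ∀ i, ((((m * l i : ℤ) : ℂ)) • (algebraMap L K (t i) * τ) ^ m) *
          aeval (fun i => (algebraMap L K (t i) * τ) ^ m) (pderiv i P) =
          (m : K) * aeval (fun i => (algebraMap L K (t i) * τ) ^ m)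
            (C (l i : ℂ) * (MvPolynomial.X i * pderiv i P)) := by
        intro i
        simp only [map_mul, aeval_X, Algebra.smul_def, map_intCast]
        push_cast
        ring
      rw [Finset.sum_congr rfl fun i _ => h3 i, ← Finset.mul_sum, h2, mul_zero])
  refine ⟨δ, fun i => ?_⟩
  have hτ0 : τ ≠ 0 := by
    intro h
    rw [h] at hτ
    exact hτ isAlgebraic_zero
  exact der_root δ _ (mul_ne_zero ((map_ne_zero _).2 (t_ne hm hF i)) hτ0) m hm (l i) (hδ i)

end cone

end Pool.Agent.Y721.KZ
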