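import Pool.Agent.W602.GT.Der

/-!
Derivations with prescribed values on generators with relations.
-/

set_option autoImplicit false

open MvPolynomial

namespace Pool.Agent.Y721.KZ

variable {K : Type} [Field K] [Algebra ℂ K] {ι : Type} [Fintype ι]

/-- the derivative of a polynomial expression with prescribed derivatives of the generators -/
noncomputable def Phi (Y a : ι → K) (P : MvPolynomial ι ℂ) : K :=
  ∑ i, a i * aeval Y (pderiv i P)

theorem Phi_add (Y a : ι → K) (P Q : MvPolynomial ι ℂ) :
    Phi Y a (P + Q) = Phi Y a P + Phi Y a Q := by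
  unfold Phi
  rw [← Finset.sum_add_distrib]
  exact Finset.sum_congr rfl fun i _ => by rw [map_add, map_add, mul_add]

theorem Phi_mul (Y a : ι → K) (P Q : MvPolynomial ι ℂ) :
    Phi Y a (P * Q) = aeval Y P * Phi Y a Q + aeval Y Q * Phi Y a P := by
  unfold Phi
  rw [Finset.mul_sum, Finset.mul_sum, ← Finset.sum_add_distrib]
  refine Finset.sum_congr rfl fun i _ => ?_
  rw [Derivation.leibniz, map_add, smul_eq_mul, smul_eq_mul, map_mul, map_mul]
  ring

theorem Phi_C (Y a : ι → K) (c : ℂ) : Phi Y a (C c) = 0 := by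
  unfold Phi
  exact Finset.sum_eq_zero fun i _ => by rw [pderiv_C, map_zero, mul_zero]

theorem Phi_X (Y a : ι → K) (i : ι) : Phi Y a (X i) = a i := by
  classical
  unfold Phi
  rw [Finset.sum_eq_single i]
  · rw [pderiv_X_self, map_one, mul_one]
  · intro j _ hj
    rw [pderiv_X_of_ne hj.symm, map_zero, mul_zero]
  · intro h
    exact absurd (Finset.mem_univ i) h

/-- the difference of a derivation and the prescribed derivative -/
noncomputable def Psi (D : Derivation ℂ K K) (Y a : ι → K) (P : MvPolynomial ι ℂ) : K :=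
  D (aeval Y P) - Phi Y a P

theorem Psi_add (D : Derivation ℂ K K) (Y a : ι → K) (P Q : MvPolynomial ι ℂ) :
    Psi D Y a (P + Q) = Psi D Y a P + Psi D Y a Q := by
  unfold Psi
  rw [map_add, map_add, Phi_add]
  ring

theorem Psi_mul (D : Derivation ℂ K K) (Y a : ι → K) (P Q : MvPolynomial ι ℂ) :
    Psi D Y a (P * Q) = aeval Y P * Psi D Y a Q + aeval Y Q * Psi D Y a P := by
  unfold Psi
  rw [map_mul, D.leibniz, Phi_mul, smul_eq_mul, smul_eq_mul]
  ring

theorem Psi_C (D : Derivation ℂ K K) (Y a : ι → K) (c : ℂ) : Psi D Y a (C c) = 0 := by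
  unfold Psi
  rw [Phi_C, algHom_C, D.map_algebraMap, sub_zero]

theorem Psi_pow (D : Derivation ℂ K K) (Y a : ι → K) (P : MvPolynomial ι ℂ) (n : ℕ) :
    Psi D Y a (P ^ n) = n * aeval Y P ^ (n - 1) * Psi D Y a P := by
  induction n with
  | zero =>
    have h1 : (P ^ 0 : MvPolynomial ι ℂ) = C 1 := by rw [pow_zero, C_1]
    rw [h1, Psi_C]
    simp
  | succ n ih =>
    rw [pow_succ, Psi_mul, ih]
    rcases n with _ | n
    · simp
    · simp only [Nat.add_sub_cancel]
      rw [map_pow]
      push_cast
      ring

/-- A derivation exists with given values on generators if these are compatible with the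
relations. -/
theorem der_of_rel (Y a : ι → K)
    (h : ∀ P : MvPolynomial ι ℂ, aeval Y P = 0 → Phi Y a P = 0) :
    ∃ D : Derivation ℂ K K, ∀ i, D (Y i) = a i := by
  classical
  have hchar : CharZero K := charZero_of_injective_algebraMap (algebraMap ℂ K).injective
  obtain ⟨S, -, ⟨hS, hSY⟩, hmax⟩ := exists_maximal_algebraicIndependent (R := ℂ) (∅ : Set K)
    (Set.range Y) (Set.empty_subset _) (by
      have : AlgebraicIndependent ℂ (fun x : (∅ : Set K) => (x : K)) :=
        algebraicIndependent_empty_type
      exact this)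
  obtain ⟨B, hB, hB'⟩ := exists_isTranscendenceBasis_superset (R := ℂ) (s := S) hS
  choose σ hσ using fun s : S => hSY s.2
  let c' : B → K := fun b => if h : (b : K) ∈ S then a (σ ⟨b, h⟩) else 0
  obtain ⟨D, hD⟩ := Pool.Agent.W602.GT.exists_der ((↑) : B → K) hB' c'
  have hDS : ∀ s : S, D (s : K) = a (σ s) := by
    intro s
    have h1 := hD ⟨s, hB s.2⟩
    simp only [c'] at h1
    rw [dif_pos s.2] at h1
    exact h1
  refine ⟨D, fun i => ?_⟩
  have hΨ0 : ∀ P : MvPolynomial ι ℂ, aeval Y P = 0 → Psi D Y a P = 0 := by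
    intro P hP
    unfold Psi
    rw [hP, map_zero, h P hP, sub_zero]
  have hren : ∀ c : MvPolynomial S ℂ, Psi D Y a (rename σ c) = 0 := by
    intro c
    induction c using MvPolynomial.induction_on with
    | C c => rw [rename_C, Psi_C]
    | add p q hp hq => rw [map_add, Psi_add, hp, hq, add_zero]
    | mul_X p s hp =>
      rw [map_mul, Psi_mul, hp, mul_zero, add_zero, rename_X]
      have h1 : Psi D Y a (X (σ s)) = 0 := by
        unfold Psi
        rw [aeval_X, Phi_X, hσ, hDS, sub_self]
      rw [h1, mul_zero]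
  -- algebraic over `S`
  let ev : Polynomial (MvPolynomial S ℂ) →+* MvPolynomial ι ℂ :=
    Polynomial.eval₂RingHom (rename σ : MvPolynomial S ℂ →ₐ[ℂ] MvPolynomial ι ℂ).toRingHom (X i)
  have hev : ∀ q : Polynomial (MvPolynomial S ℂ),
      Psi D Y a (ev q) = aeval Y (ev (Polynomial.derivative q)) * Psi D Y a (X i) := by
    intro q
    induction q using Polynomial.induction_on' with
    | add p q hp hq =>
      rw [map_add, Psi_add, hp, hq, Polynomial.derivative_add, map_add, map_add, add_mul]
    | monomial n c =>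
      have h1 : ev (Polynomial.monomial n c) = rename σ c * X i ^ n := by
        simp [ev, Polynomial.eval₂_monomial]
      have h2 : ev (Polynomial.derivative (Polynomial.monomial n c)) =
          rename σ c * ((n : MvPolynomial ι ℂ) * X i ^ (n - 1)) := by
        rw [Polynomial.derivative_monomial]
        simp [ev, Polynomial.eval₂_monomial, mul_assoc]
      rw [h1, h2, Psi_mul, hren, mul_zero, add_zero, Psi_pow]
      simp only [map_mul, map_pow, map_natCast, aeval_X]
      ring
  -- the relation of minimal degree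
  have halg : ∃ q : Polynomial (MvPolynomial S ℂ), q ≠ 0 ∧ aeval Y (ev q) = 0 := by
    by_cases hi : Y i ∈ S
    · refine ⟨Polynomial.X - Polynomial.C (X ⟨Y i, hi⟩), Polynomial.X_sub_C_ne_zero _, ?_⟩
      have h1 : ev (Polynomial.X - Polynomial.C (X ⟨Y i, hi⟩)) = X i - X (σ ⟨Y i, hi⟩) := by
        simp [ev]
      rw [h1, map_sub, aeval_X, aeval_X, hσ, sub_self]
    · have h1 : ¬ Transcendental (Algebra.adjoin ℂ (id '' S)) (id (Y i)) := by
        intro htr
        have h2 := AlgebraicIndepOn.insert (x := id) hS htr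
        have h3 := hmax ⟨h2, Set.insert_subset ⟨i, rfl⟩ hSY⟩ (Set.subset_insert _ _)
        exact hi (h3 (Set.mem_insert _ _))
      rw [Transcendental, not_not] at h1
      have hset : id '' S = Set.range (fun s : S => id (s : K)) := by
        ext x
        simp
      rw [hset] at h1
      obtain ⟨p, hp0, hp⟩ := h1
      let E := AlgebraicIndependent.aevalEquiv (R := ℂ) (x := fun s : S => id (s : K)) hS
      refine ⟨p.map (E.symm : _ →+* MvPolynomial S ℂ), ?_, ?_⟩
      · exact (Polynomial.map_ne_zero_iff E.symm.injective).2 hp0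
      · have h2 : ((aeval Y : MvPolynomial ι ℂ →ₐ[ℂ] K) : MvPolynomial ι ℂ →+* K).comp ev =
            Polynomial.eval₂RingHom ((algebraMap (Algebra.adjoin ℂ
              (Set.range (fun s : S => id (s : K)))) K).comp (E : MvPolynomial S ℂ →+* _)) (Y i) := by
          apply Polynomial.ringHom_ext
          · intro c
            simp only [RingHom.comp_apply, ev, Polynomial.coe_eval₂RingHom, Polynomial.eval₂_C]
            change aeval Y (rename σ c) = ((E c : Algebra.adjoin ℂ
              (Set.range (fun s : S => id (s : K)))) : K)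
            rw [aeval_rename, AlgebraicIndependent.aevalEquiv_apply_coe]
            congr 2
            funext s
            exact hσ s
          · simp [ev]
        have h3 : aeval Y (ev (p.map (E.symm : _ →+* MvPolynomial S ℂ))) =
            Polynomial.eval₂ ((algebraMap (Algebra.adjoin ℂ
              (Set.range (fun s : S => id (s : K)))) K).comp (E : MvPolynomial S ℂ →+* _)) (Y i)
              (p.map (E.symm : _ →+* MvPolynomial S ℂ)) := by
          have := congrArg (fun f => f (p.map (E.symm : _ →+* MvPolynomial S ℂ))) h2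
          exact this
        rw [h3, Polynomial.eval₂_map]
        have h4 : ((algebraMap (Algebra.adjoin ℂ
              (Set.range (fun s : S => id (s : K)))) K).comp (E : MvPolynomial S ℂ →+* _)).comp
              (E.symm : _ →+* MvPolynomial S ℂ) = algebraMap (Algebra.adjoin ℂ
              (Set.range (fun s : S => id (s : K)))) K := by
          ext x
          simp
        rw [h4]
        exact hp
  obtain ⟨q, ⟨hq0, hq⟩, hmin⟩ : ∃ q : Polynomial (MvPolynomial S ℂ),
      (q ≠ 0 ∧ aeval Y (ev q) = 0) ∧ ∀ q' : Polynomial (MvPolynomial S ℂ),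
        (q' ≠ 0 ∧ aeval Y (ev q') = 0) → q.natDegree ≤ q'.natDegree := by
    have h1 : ∃ n : ℕ, ∃ q : Polynomial (MvPolynomial S ℂ),
        (q ≠ 0 ∧ aeval Y (ev q) = 0) ∧ q.natDegree = n := by
      obtain ⟨q, hq⟩ := halg
      exact ⟨_, q, hq, rfl⟩
    obtain ⟨q, hq, hqn⟩ := Nat.find_spec h1
    refine ⟨q, hq, fun q' hq' => ?_⟩
    rw [hqn]
    exact Nat.find_min' h1 ⟨q', hq', rfl⟩
  have hdeg : q.natDegree ≠ 0 := by
    intro h0
    rw [Polynomial.eq_C_of_natDegree_eq_zero h0] at hq hq0
    have h1 : ev (Polynomial.C (q.coeff 0)) = rename σ (q.coeff 0) := by simp [ev]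
    rw [h1, aeval_rename] at hq
    have h2 : (Y ∘ σ) = fun s : S => (s : K) := funext fun s => hσ s
    rw [h2] at hq
    have h3 : q.coeff 0 = 0 := (injective_iff_map_eq_zero _).1 hS _ hq
    exact hq0 (by rw [h3, Polynomial.C_0])
  have hd0 : aeval Y (ev (Polynomial.derivative q)) ≠ 0 := by
    intro h0
    have h1 : Polynomial.derivative q ≠ 0 := by
      intro h
      exact hdeg (Polynomial.natDegree_eq_zero_of_derivative_eq_zero h)
    have h2 := hmin _ ⟨h1, h0⟩
    have h3 := Polynomial.natDegree_derivative_lt hdeg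
    omega
  have h1 := hev q
  rw [hΨ0 _ hq] at h1
  have h2 : Psi D Y a (X i) = 0 := (mul_eq_zero.1 h1.symm).resolve_left hd0
  unfold Psi at h2
  rw [aeval_X, Phi_X] at h2
  exact sub_eq_zero.1 h2

end Pool.Agent.Y721.KZ
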